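import Mathlib
import Pool.Agent.Lib.AntiSearch

set_option autoImplicit false
set_option maxHeartbeats 4000000

namespace Pool.Agent.Results.MP_b6be33_co.NotFixed

open Pool.Agent.AntiSearch

/-- rows (as bit masks) of the adjacency matrix of the 9-vertex example -/
def M9 : List ℕ := [330, 57, 424, 135, 226, 86, 305, 284, 197]

def G9 : SimpleGraph (Fin 9) where
  Adj a b := adjM M9 a.val b.val = true
  symm := ⟨by decide +kernel⟩
  loopless := ⟨by decide +kernel⟩

instance : DecidableRel G9.Adj := fun a b => inferInstanceAs (Decidable (adjM M9 a.val b.val = true))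

theorem reg : G9.IsRegularOfDegree (2 * 2) := by
  unfold SimpleGraph.IsRegularOfDegree
  decide +kernel

def tab : List (Fin 9) := [0, 2, 3, 4, 1, 6, 7, 8, 5]
def tabInv : List (Fin 9) := [0, 4, 1, 2, 3, 8, 5, 6, 7]

def perm : Equiv.Perm (Fin 9) where
  toFun x := tab.getD x.val 0
  invFun x := tabInv.getD x.val 0
  left_inv := by decide +kernel
  right_inv := by decide +kernel

def iso : G9 ≃g G9ᶜ where
  toEquiv := perm
  map_rel_iff' := by
    intro a b
    revert a b
    simp only [SimpleGraph.compl_adj]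
    decide +kernel

def finF (l : List ℕ) : Bool := l.getD 1 0 == 1

theorem search_true : search M9 9 finF 9 [] = true := by decide +kernel

theorem no_fix (σ : G9 ≃g G9ᶜ) : σ 1 ≠ 1 := by
  intro hfix
  let s : ℕ → ℕ := fun i => if hi : i < 9 then (σ ⟨i, hi⟩).val else 0
  have hs : ∀ i (hi : i < 9), s i = (σ ⟨i, hi⟩).val := by
    intro i hi; simp [s, hi]
  have hlt : ∀ i, i < 9 → s i < 9 := by
    intro i hi; rw [hs i hi]; exact (σ ⟨i, hi⟩).isLt
  have hinj : ∀ i j, i < j → j < 9 → s i ≠ s j := by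
    intro i j hij hj h1
    rw [hs i (by omega), hs j hj] at h1
    have h2 := σ.injective (Fin.ext h1)
    have h3 : i = j := congrArg Fin.val h2
    omega
  have hadj : ∀ i j, i < j → j < 9 → adjM M9 i j ≠ adjM M9 (s i) (s j) := by
    intro i j hij hj h1
    rw [hs i (by omega), hs j hj] at h1
    have hi : i < 9 := by omega
    have h2 : G9ᶜ.Adj (σ ⟨i, hi⟩) (σ ⟨j, hj⟩) ↔ G9.Adj ⟨i, hi⟩ ⟨j, hj⟩ := σ.map_rel_iff
    have hne : (σ ⟨i, hi⟩) ≠ (σ ⟨j, hj⟩) := by
      intro h3
      have h4 := σ.injective h3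
      have h5 : i = j := congrArg Fin.val h4
      omega
    rw [SimpleGraph.compl_adj] at h2
    have h3 : G9.Adj ⟨i, hi⟩ ⟨j, hj⟩ ↔ G9.Adj (σ ⟨i, hi⟩) (σ ⟨j, hj⟩) := by
      change adjM M9 i j = true ↔ adjM M9 (σ ⟨i, hi⟩).val (σ ⟨j, hj⟩).val = true
      rw [h1]
    tauto
  have h1 := search_sound M9 9 finF s hlt hinj hadj 9 0 (by norm_num) (by simpa using search_true)
  have h2 : finF ((List.range 9).map s) = true := by
    unfold finF
    rw [List.getD_eq_getElem _ _ (by simp)]
    simp only [List.getElem_map, List.getElem_range, beq_iff_eq]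
    rw [hs 1 (by norm_num)]
    exact congrArg Fin.val hfix
  rw [h1] at h2
  exact absurd h2 (by decide)

/-- **Main result.** It is not true that in every finite regular self-complementary graph on
`4k+1` vertices every vertex lying in exactly `k(k-1)` triangles is fixed by some
isomorphism-permutation. -/
theorem result :
    ¬ (∀ (V : Type) [Fintype V] [DecidableEq V] (G : SimpleGraph V) [DecidableRel G.Adj] (k : ℕ),
        Fintype.card V = 4 * k + 1 → (∃ d, G.IsRegularOfDegree d) → Nonempty (G ≃g Gᶜ) →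
        ∀ v : V, ((G.cliqueFinset 3).filter (fun T => v ∈ T)).card = k * (k - 1) →
          ∃ P : G ≃g Gᶜ, P v = v) := by
  intro hall
  obtain ⟨P, hP⟩ := hall (Fin 9) G9 2 (by decide) ⟨_, reg⟩ ⟨iso⟩ 1 (by decide +kernel)
  exact no_fix P hP

end Pool.Agent.Results.MP_b6be33_co.NotFixed
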